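import Mathlib
import Pool.Agent.H69.XorDefs
import Pool.Agent.H69.Xor3

set_option autoImplicit false

namespace Pool.Agent.Results.MP_2e5000_an.Yes

open MeasureTheory Filter Topology Pool.Agent.H69.Xor

/-- There is a weakly mixing shift-invariant Borel probability measure `μ ≠ δ₀` on `{0,1}^ℤ`
whose images under the iterates of the XOR automaton converge weak-* to `δ₀`. -/
theorem result : ∃ μ : Measure X, IsProbabilityMeasure μ ∧ μ.map shift = μ ∧ WeakMixing μ ∧
    μ ≠ Measure.dirac 0 ∧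
    ∀ f : X → ℝ, Continuous f →
      Tendsto (fun n : ℕ => ∫ x, f x ∂(μ.map F^[n])) atTop (𝓝 (f 0)) := by
  obtain ⟨μ, U, h1, h2, h3, h4⟩ := exists_mu
  have h : Good μ U := ⟨h2, h3, h4⟩
  exact ⟨μ, h1, map_sh h 1, wm h, ne_dirac h, F_lim h⟩

end Pool.Agent.Results.MP_2e5000_an.Yes
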